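import Pool.Agent.U475.EA.Chain

/-!
# Edwards–Anderson model: exponential loss of memory for `β ≤ c / √d`
-/

set_option autoImplicit false

open MeasureTheory Filter
open scoped ENNReal Topology

namespace Pool.Agent.U475.EA

open Pool.H47EA

/-- the bad signs at `x` -/
def bad (d : ℕ) (τ : ℝ) (x : Site d) : Set (Coupling d) :=
  {J | ¬ Good J x (16 * d) (τ * √(d : ℝ))}

theorem bad_local (d : ℕ) (τ : ℝ) (x : Site d) (J J' : Coupling d)
    (h : ∀ e : (lat d).edgeSet, (∀ v ∈ e.1, v ∈ ball x (16 * d)) → J e = J' e) :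
    J ∈ bad d τ x ↔ J' ∈ bad d τ x := by
  constructor
  · intro hbad hG
    exact hbad (good_local x _ _ J' J (fun e he => (h e he).symm) hG)
  · intro hbad hG
    exact hbad (good_local x _ _ J J' h hG)

theorem exp4_le : Real.exp 4 ≤ 60 := by
  have h := Real.exp_one_lt_d9
  have : Real.exp 4 = (Real.exp 1) ^ 4 := by rw [← Real.exp_nat_mul]; norm_num
  rw [this]
  calc (Real.exp 1) ^ 4 ≤ 2.7182818286 ^ 4 := pow_le_pow_left₀ (Real.exp_pos _).le h.le 4
    _ ≤ 60 := by norm_num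

/-- `exp (r / 9) ≤ 60 ^ m` if `r ≤ 33 m` -/
theorem exp_le_pow (r m : ℕ) (h : r ≤ 33 * m) : Real.exp ((r : ℝ) / 9) ≤ 60 ^ m := by
  have h1 : (r : ℝ) / 9 ≤ (m : ℝ) * 4 := by
    have : (r : ℝ) ≤ 33 * m := by exact_mod_cast h
    have hm : (0 : ℝ) ≤ m := Nat.cast_nonneg m
    linarith
  calc Real.exp ((r : ℝ) / 9) ≤ Real.exp ((m : ℝ) * 4) := Real.exp_le_exp.2 h1
    _ = (Real.exp 4) ^ m := by rw [← Real.exp_nat_mul]
    _ ≤ 60 ^ m := pow_le_pow_left₀ (Real.exp_pos _).le exp4_le m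

theorem num_ennreal (d : ℕ) (hd : 1 ≤ d) :
    ((180 ^ d : ℕ) : ℝ≥0∞) * ((60 : ℝ≥0∞) ^ d * (ENNReal.ofReal (epsr d) + ENNReal.ofReal (badr d)))
      ≤ 2⁻¹ := by
  have h0 : ((180 ^ d : ℕ) : ℝ≥0∞) = ENNReal.ofReal ((180 : ℝ) ^ d) := by
    rw [← ENNReal.ofReal_natCast]; push_cast; rfl
  have h1 : (60 : ℝ≥0∞) ^ d = ENNReal.ofReal ((60 : ℝ) ^ d) := by
    rw [ENNReal.ofReal_pow (by norm_num)]; norm_num
  rw [← ENNReal.ofReal_add (epsr_nonneg d) (badr_nonneg d), h0, h1,
    ← ENNReal.ofReal_mul (by positivity), ← ENNReal.ofReal_mul (by positivity)]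
  calc ENNReal.ofReal ((180 : ℝ) ^ d * (60 ^ d * (epsr d + badr d))) ≤ ENNReal.ofReal (1 / 2) :=
        ENNReal.ofReal_le_ofReal (num_le d hd)
    _ = 2⁻¹ := by
        rw [one_div, ENNReal.ofReal_inv_of_pos (by norm_num)]; norm_num

/-- **Exponential loss of memory.** -/
theorem decay : ∃ c : ℝ, 0 < c ∧ ∀ d : ℕ, 1 ≤ d → ∀ A : Finset (Site d), A.Nonempty →
    ∃ K : Coupling d → ℝ≥0∞, Measurable K ∧
      ∫⁻ J, K J ∂(couplingLaw d) ≤ 10800 ^ d * A.card ∧
      ∀ (J : Coupling d) (β : ℝ), 0 < β → β ≤ c / √(d : ℝ) →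
        ∀ (Λ : Finset (Site d)) (r : ℕ), (∀ a ∈ A, ∀ y, y ∉ Λ → r ≤ dist1 a y) →
        ∀ f : (Site d → Bool) → ℝ, Unit01 f → LocalOn A f → ∀ ω ω' : Site d → Bool,
          ENNReal.ofReal |gE β J Λ ω f - gE β J Λ ω' f| ≤
            K J * ENNReal.ofReal (Real.exp (-((r : ℝ) / 9))) := by
  classical
  obtain ⟨τ, hτ1, hbad⟩ := bad_prob
  have hτ0 : 0 < τ := by linarith
  refine ⟨1 / (4 * τ), by positivity, fun d hd A hA => ?_⟩
  have hd' : (1 : ℝ) ≤ d := by exact_mod_cast hd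
  have hsd : 1 ≤ √(d : ℝ) := by rw [Real.one_le_sqrt]; exact hd'
  have hsd0 : 0 < √(d : ℝ) := by linarith
  have hsd2 : √(d : ℝ) ^ 2 = d := Real.sq_sqrt (by positivity)
  set T : ℝ := τ * √(d : ℝ) with hT
  have hT0 : 0 < T := by positivity
  set ε : ℝ≥0∞ := ENNReal.ofReal (epsr d) with hε
  have hloc := fun x J J' h => bad_local d τ x J J' h
  have hw := lint_wsum (R := 16 * d) (N := 180 ^ d) (Bad := bad d τ)
    (b := ENNReal.ofReal (badr d)) (ε := ε) (W := 60 ^ d) hloc (fun x => hbad d hd x)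
    (fun x => card_ball_33 t_BALL d hd x) (num_ennreal d hd) A
  have hwm : Measurable (wsum (16 * d) A (bad d τ) ε (60 ^ d)) := wsum_meas hloc A
  have hA1 : (1 : ℝ≥0∞) ≤ A.card := by
    have : 1 ≤ A.card := hA.card_pos
    exact_mod_cast this
  refine ⟨fun J => 3600 ^ d * (wsum (16 * d) A (bad d τ) ε (60 ^ d) J + 1),
    (hwm.add_const 1).const_mul _, ?_, ?_⟩
  · rw [lintegral_const_mul _ (hwm.add_const 1), lintegral_add_right _ measurable_const,
      lintegral_const, measure_univ, mul_one]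
    calc (3600 : ℝ≥0∞) ^ d * (∫⁻ J, wsum (16 * d) A (bad d τ) ε (60 ^ d) J ∂(couplingLaw d) + 1)
        ≤ 3600 ^ d * (2 * A.card + A.card) := by gcongr
      _ = 3600 ^ d * (3 * A.card) := by ring
      _ ≤ 3600 ^ d * (3 ^ d * A.card) := by
          gcongr
          exact le_self_pow₀ (by norm_num) (by omega)
      _ = 10800 ^ d * A.card := by
          rw [← mul_assoc, ← mul_pow]; norm_num
  · intro J β hβ0 hβ Λ r hfar f hf hfl ω ω'
    have hβd : β * √(d : ℝ) ≤ 1 / (4 * τ) := by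
      rw [le_div_iff₀ hsd0] at hβ; exact hβ
    have hTβ : 4 * T * β ≤ 1 := by
      rw [hT]
      have h1 : 4 * τ * (β * √(d : ℝ)) ≤ 4 * τ * (1 / (4 * τ)) :=
        mul_le_mul_of_nonneg_left hβd (by positivity)
      have h2 : 4 * τ * (1 / (4 * τ)) = 1 := by field_simp
      linarith
    have hβs : 4 * β * d ≤ √(d : ℝ) := by
      have h3 : 1 / (4 * τ) ≤ 1 / 4 := by
        apply one_div_le_one_div_of_le (by norm_num); linarith
      have h4 : β * √(d : ℝ) ≤ 1 / 4 := hβd.trans h3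
      calc 4 * β * d = 4 * (β * √(d : ℝ)) * √(d : ℝ) := by
            nth_rewrite 1 [← hsd2]; ring
        _ ≤ 4 * (1 / 4) * √(d : ℝ) := by gcongr
        _ = √(d : ℝ) := by ring
    set p : Site d → ℝ := fun x => if J ∈ bad d τ x then 1 else epsr d with hp
    have hp0 : ∀ x, 0 ≤ p x := by
      intro x; simp only [hp]; split_ifs <;> first | exact zero_le_one | exact epsr_nonneg d
    have hpe : (fun x => ENNReal.ofReal (p x)) =
        fun x => if J ∈ bad d τ x then (1 : ℝ≥0∞) else ε := by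
      funext x; simp only [hp, hε]; split_ifs <;> simp
    have hinf : ∀ (x : Site d) (Λ : Finset (Site d)), x ∈ Λ → ∀ ω ω' : Site d → Bool,
        (∀ y ∈ ball x (16 * d), y ∉ Λ → ω y = ω' y) →
        |gE β J Λ ω (ind x) - gE β J Λ ω' (ind x)| ≤ p x := by
      intro x Λ hxΛ ω ω' hω
      by_cases hb : J ∈ bad d τ x
      · simp only [hp, hb, if_true]
        exact infl_one J x β Λ ω ω'
      · simp only [hp, hb, if_false]
        have hG : Good J x (16 * d) T := by
          by_contra hcon; exact hb hcon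
        exact infl J x T β hT0 hG hβ0 hTβ hβs Λ hxΛ ω ω' hω
    -- the trivial bound
    have htriv : ENNReal.ofReal |gE β J Λ ω f - gE β J Λ ω' f| ≤ 1 := by
      rw [← ENNReal.ofReal_one]
      apply ENNReal.ofReal_le_ofReal
      have h1 := (t_BASIC d β J Λ ω).1 f hf
      have h2 := (t_BASIC d β J Λ ω').1 f hf
      rw [abs_le]; constructor <;> linarith [h1.1, h1.2, h2.1, h2.2]
    have hexpinv : ∀ m : ℕ, r ≤ 33 * m → (1 : ℝ≥0∞) ≤
        60 ^ m * ENNReal.ofReal (Real.exp (-((r : ℝ) / 9))) := by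
      intro m hm
      have h1 : (60 : ℝ≥0∞) ^ m = ENNReal.ofReal ((60 : ℝ) ^ m) := by
        rw [ENNReal.ofReal_pow (by norm_num)]; norm_num
      rw [h1, ← ENNReal.ofReal_mul (by positivity), ← ENNReal.ofReal_one]
      apply ENNReal.ofReal_le_ofReal
      have h2 := exp_le_pow r m hm
      calc (1 : ℝ) = Real.exp ((r : ℝ) / 9) * Real.exp (-((r : ℝ) / 9)) := by
            rw [← Real.exp_add]; simp
        _ ≤ 60 ^ m * Real.exp (-((r : ℝ) / 9)) := by gcongr
    by_cases hr : r < 32 * d + 1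
    · -- close: the trivial bound is enough
      refine htriv.trans ((hexpinv d (by omega)).trans ?_)
      have h60 : (60 : ℝ≥0∞) ^ d ≤ 3600 ^ d := pow_le_pow_left₀ (by norm_num) (by norm_num) d
      calc (60 : ℝ≥0∞) ^ d * ENNReal.ofReal (Real.exp (-((r : ℝ) / 9)))
          ≤ 3600 ^ d * ENNReal.ofReal (Real.exp (-((r : ℝ) / 9))) := by gcongr
        _ = 3600 ^ d * 1 * ENNReal.ofReal (Real.exp (-((r : ℝ) / 9))) := by rw [mul_one]
        _ ≤ 3600 ^ d * (wsum (16 * d) A (bad d τ) ε (60 ^ d) J + 1) *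
              ENNReal.ofReal (Real.exp (-((r : ℝ) / 9))) := by
            gcongr
            exact le_add_self
    · -- far: chains with `n` sites
      have hpos : 0 < 32 * d + 1 := by omega
      obtain ⟨n, hn⟩ : ∃ n, r / (32 * d + 1) = n + 1 := by
        have : 1 ≤ r / (32 * d + 1) := (Nat.one_le_div_iff hpos).2 (by omega)
        exact ⟨r / (32 * d + 1) - 1, by omega⟩
      have hn1 : (n + 1) * (32 * d + 1) ≤ r := by
        rw [← hn]; exact Nat.div_mul_le_self r _
      have hn2 : r < (n + 2) * (32 * d + 1) := by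
        have := Nat.lt_div_mul_add hpos (a := r)
        rw [hn] at this
        have e : (n + 2) * (32 * d + 1) = (n + 1) * (32 * d + 1) + (32 * d + 1) := by ring
        omega
      have hfar' : ∀ a ∈ A, ∀ y, y ∉ Λ → (n + 1) * (2 * (16 * d) + 1) ≤ dist1 a y := by
        intro a ha y hy
        have h1 := hfar a ha y hy
        have e : (n + 1) * (2 * (16 * d) + 1) = (n + 1) * (32 * d + 1) := by ring
        omega
      have h := t_EXPL t_BASIC d (16 * d) (2 * (16 * d)) (by omega) β J p hp0 hinf A f hf hfl Λ n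
        hfar' ω ω'
      rw [hpe] at h
      have hch := chSum_le (R := 16 * d) (Bad := bad d τ) (ε := ε) (W := (60 : ℝ≥0∞) ^ d)
        (one_le_pow₀ (by norm_num)) A J n
      have hm : r ≤ 33 * (2 * d + d * n) := by nlinarith
      have hex := hexpinv (2 * d + d * n) hm
      set S := chSum (2 * (16 * d)) A (fun x => if J ∈ bad d τ x then 1 else ε) n with hS
      set E := ENNReal.ofReal (Real.exp (-((r : ℝ) / 9))) with hE
      calc ENNReal.ofReal |gE β J Λ ω f - gE β J Λ ω' f| ≤ S := h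
        _ = S * 1 := (mul_one S).symm
        _ ≤ S * (60 ^ (2 * d + d * n) * E) := by gcongr
        _ = 3600 ^ d * (((60 : ℝ≥0∞) ^ d) ^ n * S) * E := by
            rw [pow_add, pow_mul, pow_mul, show ((60 : ℝ≥0∞)) ^ 2 = 3600 by norm_num]
            ring
        _ ≤ 3600 ^ d * (wsum (16 * d) A (bad d τ) ε (60 ^ d) J + 1) * E := by
            gcongr
            exact hch.trans le_self_add

end Pool.Agent.U475.EA
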