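import Pool.Agent.H47R2.EA.FINAL
import Pool.Agent.H47R2.EA.BALL
import Pool.Agent.H47R2.EA.BASIC
import Pool.Agent.H47R2.EA.COMB
import Pool.Agent.H47R2.EA.COV1
import Pool.Agent.H47R2.EA.COV2
import Pool.Agent.H47R2.EA.DIFF
import Pool.Agent.H47R2.EA.EXPL
import Pool.Agent.H47R2.EA.GIBBSE
import Pool.Agent.H47R2.EA.GIBBSU
import Pool.Agent.H47R2.EA.GOOD
import Pool.Agent.H47R2.EA.INF
import Pool.Agent.H47R2.EA.ISING
import Pool.Agent.H47R2.EA.KHIN
import Pool.Agent.H47R2.EA.KR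
import Pool.Agent.H47R2.EA.NET
import Pool.Agent.H47R2.EA.REDUCE
import Pool.Agent.H47R2.EA.SIGN
import Pool.Agent.H47R2.EA.TRACE
import Pool.Agent.H613R2.EA.CHAIN

/-!
# Edwards–Anderson model: bad sites are rare, and good sites have exponentially small influence

Constants of the exploration argument of the library, in a form which leaves room for weights.
-/

set_option autoImplicit false

open MeasureTheory Filter
open scoped ENNReal Topology

namespace Pool.Agent.U475.EA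

open Pool.H47EA

theorem hINF : St_INF := t_INF t_BASIC (t_ISING (t_COV2 t_COV1)) t_DIFF t_REDUCE

theorem hGOOD : St_GOOD := t_GOOD t_COMB (t_KR t_KHIN (t_NET t_BALL)) t_TRACE t_SIGN

/-- the influence of a good site -/
noncomputable def epsr (d : ℕ) : ℝ := Real.exp (-(16 * d : ℝ)) * √(d : ℝ) * √((88 : ℝ) ^ d)

/-- the probability of a bad site -/
noncomputable def badr (d : ℕ) : ℝ := 2 * 88 ^ d * Real.exp (-(16 * d : ℝ))

theorem epsr_nonneg (d : ℕ) : 0 ≤ epsr d := by unfold epsr; positivity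

theorem badr_nonneg (d : ℕ) : 0 ≤ badr d := by unfold badr; positivity

/-- the bad events have small probability -/
theorem bad_prob : ∃ τ : ℝ, 1 ≤ τ ∧ ∀ d : ℕ, 1 ≤ d → ∀ x : Site d,
    couplingLaw d {J | ¬ Good J x (16 * d) (τ * √(d : ℝ))} ≤ ENNReal.ofReal (badr d) := by
  obtain ⟨C, hC, hgood⟩ := hGOOD
  set C' : ℝ := max C 1 with hC'
  have hC'1 : 1 ≤ C' := le_max_right _ _
  have hCC' : C ≤ C' := le_max_left _ _
  set τ : ℝ := √(8 * C' * Real.exp 4) with hτ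
  have hτ2 : τ ^ 2 = 8 * C' * Real.exp 4 := Real.sq_sqrt (by positivity)
  have hτ1 : 1 ≤ τ := by
    rw [hτ, Real.one_le_sqrt]
    have : (1 : ℝ) ≤ Real.exp 4 := Real.one_le_exp (by norm_num)
    nlinarith
  have hτ0 : 0 < τ := by linarith
  refine ⟨τ, hτ1, fun d hd x => ?_⟩
  have hd' : (1 : ℝ) ≤ d := by exact_mod_cast hd
  have hsd : 1 ≤ √(d : ℝ) := by rw [Real.one_le_sqrt]; exact hd'
  have hsd2 : √(d : ℝ) ^ 2 = d := Real.sq_sqrt (by positivity)
  set R : ℕ := 16 * d with hR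
  set T : ℝ := τ * √(d : ℝ) with hT
  have hT0 : 0 < T := by positivity
  refine (hgood d x R (8 * d) hd (by omega) (by omega) T hT0).trans
    (ENNReal.ofReal_le_ofReal ?_)
  have h88 := card_ball_16 t_BALL d x
  rw [← hR] at h88
  have hk : ((8 * d : ℕ) : ℝ) = 8 * d := by push_cast; ring
  have hT2 : T ^ (2 * (8 * d)) = (8 * C' * Real.exp 4 * d) ^ (8 * d) := by
    rw [pow_mul, hT, mul_pow, hτ2, hsd2]
  rw [hT2, hk]
  have hpos : 0 < (8 * C' * Real.exp 4 * d) ^ (8 * d) := by positivity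
  have e1 : Real.exp (2 * (8 * d : ℝ)) = (Real.exp 2) ^ (8 * d) := by
    rw [← Real.exp_nat_mul]; push_cast; ring_nf
  rw [e1, div_le_iff₀ hpos]
  have e2 : Real.exp (-(16 * d : ℝ)) * (Real.exp 2) ^ (8 * d) = 1 := by
    rw [← Real.exp_nat_mul, ← Real.exp_add]
    push_cast; ring_nf; simp
  have e3 : (8 * C' * Real.exp 4 * (d : ℝ)) = (C' * (8 * d)) * (Real.exp 2 * Real.exp 2) := by
    rw [← Real.exp_add]; norm_num; ring
  calc 2 * ((ball x R).card : ℝ) * (C * (8 * d)) ^ (8 * d) * Real.exp 2 ^ (8 * d)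
      ≤ 2 * 88 ^ d * (C' * (8 * d)) ^ (8 * d) * Real.exp 2 ^ (8 * d) := by gcongr
    _ = 2 * 88 ^ d * (Real.exp (-(16 * d : ℝ)) * (Real.exp 2) ^ (8 * d)) *
          ((C' * (8 * d)) ^ (8 * d) * Real.exp 2 ^ (8 * d)) := by rw [e2]; ring
    _ = badr d * (8 * C' * Real.exp 4 * (d : ℝ)) ^ (8 * d) := by
        rw [e3, mul_pow, mul_pow, badr]; ring

/-- the numerical inequality, with weights `60 ^ d` per step of a chain -/
theorem num_le (d : ℕ) (hd : 1 ≤ d) :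
    (180 : ℝ) ^ d * ((60 : ℝ) ^ d * (epsr d + badr d)) ≤ 1 / 2 := by
  have hexp := exp16_pow d
  have hsq : √((88 : ℝ) ^ d) ≤ (10 : ℝ) ^ d := by
    rw [Real.sqrt_le_left (by positivity), ← pow_mul, mul_comm, pow_mul]
    exact pow_le_pow_left₀ (by norm_num) (by norm_num) d
  have hs2 : √(d : ℝ) ≤ 2 ^ d := by
    rw [Real.sqrt_le_left (by positivity)]
    have h1 : (d : ℝ) ≤ 2 ^ d := by exact_mod_cast (Nat.lt_two_pow_self (n := d)).le
    have h2 : (1 : ℝ) ≤ 2 ^ d := one_le_pow₀ (by norm_num)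
    nlinarith
  have h1 : (180 : ℝ) ^ d * (60 ^ d * epsr d) ≤ (1 / 16) ^ d := by
    calc (180 : ℝ) ^ d * (60 ^ d * epsr d)
        ≤ 180 ^ d * (60 ^ d * ((1 / 7000000) ^ d * 2 ^ d * 10 ^ d)) := by
          rw [epsr]; gcongr
      _ = (180 * (60 * (1 / 7000000 * 2 * 10))) ^ d := by
          rw [mul_pow, mul_pow, mul_pow, mul_pow]
      _ ≤ (1 / 16) ^ d := pow_le_pow_left₀ (by norm_num) (by norm_num) d
  have h2 : (180 : ℝ) ^ d * (60 ^ d * badr d) ≤ 2 * (1 / 7) ^ d := by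
    calc (180 : ℝ) ^ d * (60 ^ d * badr d)
        ≤ 180 ^ d * (60 ^ d * (2 * 88 ^ d * (1 / 7000000) ^ d)) := by
          rw [badr]; gcongr
      _ = 2 * (180 * (60 * (88 * (1 / 7000000)))) ^ d := by
          rw [mul_pow, mul_pow, mul_pow]; ring
      _ ≤ 2 * (1 / 7) ^ d := by
          gcongr
          norm_num
  have h3 : ((1 : ℝ) / 16) ^ d ≤ 1 / 16 := by
    calc ((1 : ℝ) / 16) ^ d ≤ (1 / 16) ^ 1 :=
          pow_le_pow_of_le_one (by norm_num) (by norm_num) hd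
      _ = _ := by norm_num
  have h4 : ((1 : ℝ) / 7) ^ d ≤ 1 / 7 := by
    calc ((1 : ℝ) / 7) ^ d ≤ (1 / 7) ^ 1 :=
          pow_le_pow_of_le_one (by norm_num) (by norm_num) hd
      _ = _ := by norm_num
  have h5 : (180 : ℝ) ^ d * ((60 : ℝ) ^ d * (epsr d + badr d)) =
      (180 : ℝ) ^ d * (60 ^ d * epsr d) + (180 : ℝ) ^ d * (60 ^ d * badr d) := by ring
  rw [h5]
  linarith

/-- the influence bound at a good site -/
theorem infl {d : ℕ} (J : Coupling d) (x : Site d) (T β : ℝ) (hT0 : 0 < T)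
    (hG : Good J x (16 * d) T) (hβ0 : 0 < β) (hTβ : 4 * T * β ≤ 1) (hβd : 4 * β * d ≤ √(d : ℝ))
    (Λ : Finset (Site d)) (hxΛ : x ∈ Λ) (ω ω' : Site d → Bool)
    (hω : ∀ y ∈ ball x (16 * d), y ∉ Λ → ω y = ω' y) :
    |gE β J Λ ω (ind x) - gE β J Λ ω' (ind x)| ≤ epsr d := by
  refine (hINF d J x (16 * d) T hT0 hG β hβ0 hTβ Λ hxΛ ω ω' hω).trans ?_
  have h88 := card_ball_16 t_BALL d x
  have e1 : Real.exp (-((16 * d : ℕ) : ℝ)) = Real.exp (-(16 * d : ℝ)) := by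
    push_cast; rfl
  rw [e1, epsr]
  gcongr

/-- the trivial influence bound -/
theorem infl_one {d : ℕ} (J : Coupling d) (x : Site d) (β : ℝ)
    (Λ : Finset (Site d)) (ω ω' : Site d → Bool) :
    |gE β J Λ ω (ind x) - gE β J Λ ω' (ind x)| ≤ 1 := by
  have hu01 : Unit01 (ind x) := by
    intro σ; unfold ind; split_ifs <;> norm_num
  have h1 := (t_BASIC d β J Λ ω).1 _ hu01
  have h2 := (t_BASIC d β J Λ ω').1 _ hu01
  rw [abs_le]; constructor <;> linarith [h1.1, h1.2, h2.1, h2.2]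

end Pool.Agent.U475.EA
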