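import Pool.Agent.U475.EA.Base

/-!
# Weighted chain sums
-/

set_option autoImplicit false

open MeasureTheory Filter
open scoped ENNReal Topology

namespace Pool.Agent.U475.EA

open Pool.H47EA

open Classical in
/-- the sum of the weights of the chains, a chain with `m` sites counted `W ^ m` times -/
noncomputable def wsum {d : ℕ} (R : ℕ) (A : Finset (Site d)) (Bad : Site d → Set (Coupling d))
    (ε W : ℝ≥0∞) (J : Coupling d) : ℝ≥0∞ :=
  ∑' l : List (Site d), if IsCh (2 * R) A l then W ^ l.length * (l.map (chainP Bad ε J)).prod else 0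

variable {d R N : ℕ} {Bad : Site d → Set (Coupling d)} {b ε W : ℝ≥0∞}

open Classical in
theorem wterm_meas
    (h1 : ∀ x (J J' : Coupling d), (∀ e : (lat d).edgeSet, (∀ v ∈ e.1, v ∈ ball x R) → J e = J' e) →
      (J ∈ Bad x ↔ J' ∈ Bad x)) (A : Finset (Site d)) (l : List (Site d)) :
    Measurable fun J : Coupling d =>
      if IsCh (2 * R) A l then W ^ l.length * (l.map (chainP Bad ε J)).prod else 0 := by
  by_cases hl : IsCh (2 * R) A l
  · simp only [if_pos hl]
    exact measurable_const.mul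
      (chain_meas (chainFF R l) _ (fun J J' h => chain_Pl_dep h1 l J J' h))
  · simp only [if_neg hl]
    exact measurable_const

theorem wsum_meas
    (h1 : ∀ x (J J' : Coupling d), (∀ e : (lat d).edgeSet, (∀ v ∈ e.1, v ∈ ball x R) → J e = J' e) →
      (J ∈ Bad x ↔ J' ∈ Bad x)) (A : Finset (Site d)) : Measurable (wsum R A Bad ε W) := by
  classical
  unfold wsum
  exact Measurable.tsum fun l => wterm_meas h1 A l

theorem lint_wsum
    (h1 : ∀ x (J J' : Coupling d), (∀ e : (lat d).edgeSet, (∀ v ∈ e.1, v ∈ ball x R) → J e = J' e) →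
      (J ∈ Bad x ↔ J' ∈ Bad x)) (h2 : ∀ x, couplingLaw d (Bad x) ≤ b)
    (h3 : ∀ x : Site d, (ball x (2 * R + 1)).card ≤ N)
    (h4 : (N : ℝ≥0∞) * (W * (ε + b)) ≤ 2⁻¹) (A : Finset (Site d)) :
    ∫⁻ J, wsum R A Bad ε W J ∂(couplingLaw d) ≤ 2 * A.card := by
  classical
  unfold wsum
  rw [lintegral_tsum (fun l => (wterm_meas h1 A l).aemeasurable)]
  refine chain_sum_bound (2 * R) N h3 A (W * (ε + b)) h4 _ (fun l hl => ?_) (fun l hl => ?_)
  · simp only [if_pos hl]
    rw [lintegral_const_mul _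
      (chain_meas (chainFF R l) _ (fun J J' h => chain_Pl_dep h1 l J J' h)), mul_pow]
    gcongr
    exact chain_lint_Pl h1 h2 l (chain_pairwise _ _ l hl)
  · simp only [if_neg hl, lintegral_zero]

open Classical in
theorem chSum_le (hW : 1 ≤ W) (A : Finset (Site d)) (J : Coupling d) (n : ℕ) :
    W ^ n * chSum (2 * R) A (fun x => if J ∈ Bad x then 1 else ε) n ≤ wsum R A Bad ε W J := by
  unfold chSum wsum
  rw [← ENNReal.tsum_mul_left]
  refine ENNReal.tsum_le_tsum fun l => ?_
  by_cases hl : IsCh (2 * R) A l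
  · by_cases hn : n ≤ l.length
    · rw [if_pos ⟨hl, hn⟩, if_pos hl]
      exact mul_le_mul' (pow_le_pow_right₀ hW hn) (le_of_eq rfl)
    · rw [if_neg (fun h => hn h.2), mul_zero]
      exact zero_le
  · rw [if_neg (fun h => hl h.1), mul_zero]
    exact zero_le

end Pool.Agent.U475.EA
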