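import Pool.Agent.U475.EA.Decay

/-!
# Edwards–Anderson model: changing the signs of some edges keeps the good sites good
-/

set_option autoImplicit false

open MeasureTheory Filter
open scoped ENNReal Topology

namespace Pool.Agent.U475.EA

open Pool.H47EA

variable {d : ℕ}

/-- The signs `J'` arise from `J` by changes only on edges which can be oriented such that every
site has out-degree at most `a` and in-degree at most `b`; `O x` is the set of the out-neighbours
of `x`. -/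
def Changes (J J' : Coupling d) (a b : ℕ) : Prop :=
  ∃ O : Site d → Finset (Site d), (∀ x, (O x).card ≤ a) ∧
    (∀ y : Site d, {x : Site d | (lat d).Adj x y ∧ y ∈ O x}.ncard ≤ b) ∧
    ∀ x y : Site d, Jc J' x y ≠ Jc J x y → y ∈ O x ∨ x ∈ O y

theorem sum_fst_le (B : Finset (Site d)) (Q : Site d → Site d → Prop) [∀ y z, Decidable (Q y z)]
    (F : Site d → ℝ) (hF : ∀ y, 0 ≤ F y) (m : ℕ)
    (hm : ∀ y ∈ B, (B.filter fun z => Q y z).card ≤ m) :
    ∑ p ∈ (B ×ˢ B).filter (fun p => Q p.1 p.2), F p.1 ≤ m * ∑ y ∈ B, F y := by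
  rw [Finset.sum_filter, Finset.sum_product, Finset.mul_sum]
  refine Finset.sum_le_sum fun y hy => ?_
  rw [← Finset.sum_filter]
  show ∑ _a ∈ B.filter (fun z => Q y z), F y ≤ _
  rw [Finset.sum_const, nsmul_eq_mul]
  exact mul_le_mul_of_nonneg_right (by exact_mod_cast hm y hy) (hF y)

theorem sum_snd_le (B : Finset (Site d)) (Q : Site d → Site d → Prop) [∀ y z, Decidable (Q y z)]
    (F : Site d → ℝ) (hF : ∀ y, 0 ≤ F y) (m : ℕ)
    (hm : ∀ z ∈ B, (B.filter fun y => Q y z).card ≤ m) :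
    ∑ p ∈ (B ×ˢ B).filter (fun p => Q p.1 p.2), F p.2 ≤ m * ∑ y ∈ B, F y := by
  rw [Finset.sum_filter, Finset.sum_product_right, Finset.mul_sum]
  refine Finset.sum_le_sum fun z hz => ?_
  rw [← Finset.sum_filter]
  show ∑ _a ∈ B.filter (fun y => Q y z), F z ≤ _
  rw [Finset.sum_const, nsmul_eq_mul]
  exact mul_le_mul_of_nonneg_right (by exact_mod_cast hm z hz) (hF z)

/-- Schur's test with different row and column sums -/
theorem schur_part (B : Finset (Site d)) (Q : Site d → Site d → Prop) [∀ y z, Decidable (Q y z)]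
    (a b : ℕ) (ha : ∀ y ∈ B, (B.filter fun z => Q y z).card ≤ a)
    (hb : ∀ z ∈ B, (B.filter fun y => Q y z).card ≤ b) (u v : Site d → ℝ) :
    ∑ p ∈ (B ×ˢ B).filter (fun p => Q p.1 p.2), |u p.1| * |v p.2| ≤
      √((a : ℝ) * b) * √(∑ y ∈ B, u y ^ 2) * √(∑ y ∈ B, v y ^ 2) := by
  set S := (B ×ˢ B).filter (fun p => Q p.1 p.2) with hS
  have h1 := Real.sum_mul_le_sqrt_mul_sqrt S (fun p => |u p.1|) (fun p => |v p.2|)
  have h2 : ∑ p ∈ S, |u p.1| ^ 2 ≤ a * ∑ y ∈ B, u y ^ 2 := by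
    have := sum_fst_le B Q (fun y => |u y| ^ 2) (fun y => sq_nonneg _) a ha
    simpa [hS, sq_abs] using this
  have h3 : ∑ p ∈ S, |v p.2| ^ 2 ≤ b * ∑ y ∈ B, v y ^ 2 := by
    have := sum_snd_le B Q (fun y => |v y| ^ 2) (fun y => sq_nonneg _) b hb
    simpa [hS, sq_abs] using this
  calc ∑ p ∈ S, |u p.1| * |v p.2| ≤ √(∑ p ∈ S, |u p.1| ^ 2) * √(∑ p ∈ S, |v p.2| ^ 2) := h1
    _ ≤ √(a * ∑ y ∈ B, u y ^ 2) * √(b * ∑ y ∈ B, v y ^ 2) := by gcongr
    _ = √((a : ℝ) * b) * √(∑ y ∈ B, u y ^ 2) * √(∑ y ∈ B, v y ^ 2) := by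
        rw [Real.sqrt_mul (Nat.cast_nonneg a), Real.sqrt_mul (Nat.cast_nonneg b),
          Real.sqrt_mul (Nat.cast_nonneg a)]
        ring

theorem card_in_le {b : ℕ} {O : Site d → Finset (Site d)}
    (hb : ∀ y : Site d, {x : Site d | (lat d).Adj x y ∧ y ∈ O x}.ncard ≤ b) (B : Finset (Site d))
    (y : Site d) (P : Site d → Prop) [DecidablePred P]
    (hP : ∀ x, P x → (lat d).Adj x y ∧ y ∈ O x) : (B.filter P).card ≤ b := by
  classical
  refine le_trans ?_ (hb y)
  have hfin : {x : Site d | (lat d).Adj x y ∧ y ∈ O x}.Finite := by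
    refine (Finset.finite_toSet (nbr y)).subset fun x hx => ?_
    have h1 : dist1 x y = 1 := hx.1
    rw [Finset.mem_coe, Basic.mem_nbr, Basic.dist1_comm]
    exact h1
  rw [← Set.ncard_coe_finset]
  refine Set.ncard_le_ncard (fun x hx => ?_) hfin
  rw [Finset.mem_coe, Finset.mem_filter] at hx
  exact hP x hx.2

theorem schur {a b : ℕ} (O : Site d → Finset (Site d)) (ha : ∀ x, (O x).card ≤ a)
    (hb : ∀ y : Site d, {x : Site d | (lat d).Adj x y ∧ y ∈ O x}.ncard ≤ b)
    (M : Site d → Site d → ℝ) (hM : ∀ y z, |M y z| ≤ 6)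
    (hM0 : ∀ y z, M y z ≠ 0 → (lat d).Adj y z ∧ (z ∈ O y ∨ y ∈ O z)) (B : Finset (Site d))
    (u v : Site d → ℝ) :
    |∑ y ∈ B, ∑ z ∈ B, u y * M y z * v z| ≤
      12 * √((a : ℝ) * b) * √(∑ y ∈ B, u y ^ 2) * √(∑ y ∈ B, v y ^ 2) := by
  classical
  set Q1 : Site d → Site d → Prop := fun y z => (lat d).Adj y z ∧ z ∈ O y with hQ1
  set Q2 : Site d → Site d → Prop := fun y z => (lat d).Adj y z ∧ y ∈ O z with hQ2
  have h1 := schur_part B Q1 a b
    (fun y _ => (Finset.card_le_card (fun z hz => (Finset.mem_filter.1 hz).2.2)).trans (ha y))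
    (fun z _ => card_in_le hb B z _ fun y hy => hy) u v
  have h2 := schur_part B Q2 b a
    (fun y _ => card_in_le hb B y _ fun z hz => ⟨hz.1.symm, hz.2⟩)
    (fun z _ => (Finset.card_le_card (fun y hy => (Finset.mem_filter.1 hy).2.2)).trans (ha z)) u v
  have h3 : |∑ y ∈ B, ∑ z ∈ B, u y * M y z * v z| ≤
      ∑ p ∈ B ×ˢ B, ((if Q1 p.1 p.2 then 6 * (|u p.1| * |v p.2|) else 0) +
        if Q2 p.1 p.2 then 6 * (|u p.1| * |v p.2|) else 0) := by
    rw [← Finset.sum_product (f := fun p : Site d × Site d => u p.1 * M p.1 p.2 * v p.2)]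
    refine (Finset.abs_sum_le_sum_abs _ _).trans (Finset.sum_le_sum fun p _ => ?_)
    rw [abs_mul, abs_mul]
    have hnn : 0 ≤ |u p.1| * |v p.2| := mul_nonneg (abs_nonneg _) (abs_nonneg _)
    have hle : |u p.1| * |M p.1 p.2| * |v p.2| ≤ 6 * (|u p.1| * |v p.2|) := by
      calc |u p.1| * |M p.1 p.2| * |v p.2| = |M p.1 p.2| * (|u p.1| * |v p.2|) := by ring
        _ ≤ 6 * (|u p.1| * |v p.2|) := mul_le_mul_of_nonneg_right (hM _ _) hnn
    by_cases hz : M p.1 p.2 = 0
    · rw [hz, abs_zero, mul_zero, zero_mul]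
      positivity
    · obtain ⟨hadj, h | h⟩ := hM0 _ _ hz
      · rw [if_pos (show Q1 p.1 p.2 from ⟨hadj, h⟩)]
        have : 0 ≤ (if Q2 p.1 p.2 then 6 * (|u p.1| * |v p.2|) else 0) := by positivity
        linarith
      · rw [if_pos (show Q2 p.1 p.2 from ⟨hadj, h⟩)]
        have : 0 ≤ (if Q1 p.1 p.2 then 6 * (|u p.1| * |v p.2|) else 0) := by positivity
        linarith
  rw [Finset.sum_add_distrib, ← Finset.sum_filter, ← Finset.sum_filter, ← Finset.mul_sum,
    ← Finset.mul_sum] at h3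
  have e : √((b : ℝ) * a) = √((a : ℝ) * b) := by rw [mul_comm]
  rw [e] at h2
  nlinarith [h1, h2, h3]

theorem good_change {J J' : Coupling d} {a b : ℕ} (h : Changes J J' a b) (x : Site d) (R : ℕ)
    (T : ℝ) (hG : Good J x R T) : Good J' x R (T + 12 * √((a : ℝ) * b)) := by
  obtain ⟨O, ha, hb, hO⟩ := h
  have habs : ∀ y z, |Jc J' y z - Jc J y z| ≤ 2 := fun y z => by
    refine (abs_sub _ _).trans ?_
    have h1 := InfAux.abs_Jc_le J' y z
    have h2 := InfAux.abs_Jc_le J y z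
    linarith
  have hne : ∀ y z, Jc J' y z - Jc J y z ≠ 0 → (lat d).Adj y z ∧ (z ∈ O y ∨ y ∈ O z) := by
    intro y z hyz
    have hne' : Jc J' y z ≠ Jc J y z := fun h => hyz (by rw [h, sub_self])
    refine ⟨?_, hO y z hne'⟩
    by_contra hadj
    exact hne' (by simp [Jc, hadj])
  refine ⟨fun u v => ?_, fun u v => ?_⟩
  · have h1 := hG.1 u v
    have h2 := schur O ha hb (fun y z => Jc J' y z - Jc J y z)
      (fun y z => (habs y z).trans (by norm_num)) hne (ball x R) u v
    have e : ∑ y ∈ ball x R, ∑ z ∈ ball x R, u y * Jc J' y z * v z =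
        (∑ y ∈ ball x R, ∑ z ∈ ball x R, u y * Jc J y z * v z) +
        ∑ y ∈ ball x R, ∑ z ∈ ball x R, u y * (Jc J' y z - Jc J y z) * v z := by
      rw [← Finset.sum_add_distrib]
      refine Finset.sum_congr rfl fun y _ => ?_
      rw [← Finset.sum_add_distrib]
      exact Finset.sum_congr rfl fun z _ => by ring
    rw [e]
    refine (abs_add_le _ _).trans ?_
    nlinarith [h1, h2]
  · have h1 := hG.2 u v
    have h2 := schur O ha hb
      (fun y z => Real.exp ((dist1 x z : ℝ) - (dist1 x y : ℝ)) * (Jc J' y z - Jc J y z))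
      (fun y z => by
        by_cases hz : Jc J' y z - Jc J y z = 0
        · rw [hz, mul_zero, abs_zero]; norm_num
        · have hadj : dist1 y z = 1 := (hne y z hz).1
          have htri := InfAux.dist_tri x y z
          have hle : (dist1 x z : ℝ) - (dist1 x y : ℝ) ≤ 1 := by
            have : (dist1 x z : ℝ) ≤ dist1 x y + 1 := by
              rw [hadj] at htri; exact_mod_cast htri
            linarith
          rw [abs_mul, abs_of_pos (Real.exp_pos _)]
          calc Real.exp ((dist1 x z : ℝ) - (dist1 x y : ℝ)) * |Jc J' y z - Jc J y z|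
              ≤ Real.exp 1 * 2 := mul_le_mul (Real.exp_le_exp.2 hle) (habs y z) (abs_nonneg _)
                (Real.exp_pos _).le
            _ ≤ 6 := by have := Real.exp_one_lt_d9; linarith)
      (fun y z hyz => hne y z (fun h0 => hyz (by rw [h0, mul_zero]))) (ball x R) u v
    have e : ∑ y ∈ ball x R, ∑ z ∈ ball x R,
          u y * (Real.exp ((dist1 x z : ℝ) - (dist1 x y : ℝ)) * Jc J' y z) * v z =
        (∑ y ∈ ball x R, ∑ z ∈ ball x R,
          u y * (Real.exp ((dist1 x z : ℝ) - (dist1 x y : ℝ)) * Jc J y z) * v z) +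
        ∑ y ∈ ball x R, ∑ z ∈ ball x R,
          u y * (Real.exp ((dist1 x z : ℝ) - (dist1 x y : ℝ)) * (Jc J' y z - Jc J y z)) * v z := by
      rw [← Finset.sum_add_distrib]
      refine Finset.sum_congr rfl fun y _ => ?_
      rw [← Finset.sum_add_distrib]
      exact Finset.sum_congr rfl fun z _ => by ring
    rw [e]
    refine (abs_add_le _ _).trans ?_
    nlinarith [h1, h2]

end Pool.Agent.U475.EA
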