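import Pool.Agent.U475.EA.Decay

/-!
# Edwards–Anderson model: decay of correlations of Gibbs states from the loss of memory
-/

set_option autoImplicit false

open MeasureTheory Filter
open scoped ENNReal Topology

namespace Pool.Agent.U475.EA

open Pool.H47EA

variable {d : ℕ}

theorem local_meas (A : Finset (Site d)) (f : (Site d → Bool) → ℝ) (hf : LocalOn A f) :
    Measurable f := by
  classical
  set g : (A → Bool) → ℝ := fun y => f (fun e => if h : e ∈ A then y ⟨e, h⟩ else false) with hg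
  have : f = g ∘ (fun σ : Site d → Bool => fun e : A => σ e) := by
    funext σ
    simp only [hg, Function.comp]
    exact hf _ _ fun x hx => by simp [hx]
  rw [this]
  exact (measurable_of_finite g).comp (measurable_pi_lambda _ fun e => measurable_pi_apply _)

theorem gibbs_fix {β : ℝ} {J : Coupling d} {π : Measure (Site d → Bool)} (hπ : IsGibbs β J π)
    (a b : Site d) : GIBBSE.KK β J (Finset.Icc a b) π = π := by
  have := hπ.1
  have hK := GIBBSE.prob_KK β J (Finset.Icc a b) π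
  refine Measure.ext fun A hA => ?_
  have hind : Measurable (A.indicator fun _ => (1 : ℝ)) := measurable_const.indicator hA
  have h1 := GIBBSE.integral_KK β J (Finset.Icc a b) π
    (A.indicator fun _ => (1 : ℝ)) hind 1 (by
      intro x
      by_cases hx : x ∈ A
      · simp [hx]
      · simp [hx])
  rw [← hπ.2 a b A hA, integral_indicator hA] at h1
  have h2 : ((GIBBSE.KK β J (Finset.Icc a b) π) A).toReal = (π A).toReal := by
    rw [← h1]; simp [Measure.real]
  exact (ENNReal.toReal_eq_toReal_iff' (measure_ne_top _ _) (measure_ne_top _ _)).1 h2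

theorem abs_gE_le (β : ℝ) (J : Coupling d) (L : Finset (Site d)) (ω : Site d → Bool)
    (F : (Site d → Bool) → ℝ) (C : ℝ) (hC : ∀ x, |F x| ≤ C) : |gE β J L ω F| ≤ C := by
  rw [GIBBSE.gE_eq]
  calc |∑ η, GIBBSE.ww β J L η ω * F (glue L η ω)|
      ≤ ∑ η, |GIBBSE.ww β J L η ω * F (glue L η ω)| := Finset.abs_sum_le_sum_abs _ _
    _ ≤ ∑ η, GIBBSE.ww β J L η ω * C := by
        refine Finset.sum_le_sum fun η _ => ?_
        rw [abs_mul, abs_of_nonneg (GIBBSE.ww_nonneg β J L η ω)]
        exact mul_le_mul_of_nonneg_left (hC _) (GIBBSE.ww_nonneg β J L η ω)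
    _ = C := by rw [← Finset.sum_mul, GIBBSE.ww_sum, one_mul]

/-- the DLR equations for arbitrary finite sets and bounded measurable functions -/
theorem gibbs_int {β : ℝ} {J : Coupling d} {π : Measure (Site d → Bool)} (hπ : IsGibbs β J π)
    (L : Finset (Site d)) (F : (Site d → Bool) → ℝ) (hF : Measurable F) (C : ℝ)
    (hC : ∀ x, |F x| ≤ C) : ∫ ω, gE β J L ω F ∂π = ∫ ω, F ω ∂π := by
  have := hπ.1
  obtain ⟨b, hb⟩ := L.bddAbove
  obtain ⟨a, ha⟩ := L.bddBelow
  have hsub : L ⊆ Finset.Icc a b := by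
    intro x hx
    rw [Finset.mem_Icc]
    exact ⟨ha hx, hb hx⟩
  have h1 : ∫ ω, F ω ∂π = ∫ ω, gE β J (Finset.Icc a b) ω F ∂π := by
    conv_lhs => rw [← gibbs_fix hπ a b]
    exact GIBBSE.integral_KK β J (Finset.Icc a b) π F hF C hC
  have h2 : ∫ ω, gE β J L ω F ∂π =
      ∫ ω, gE β J (Finset.Icc a b) ω (fun τ => gE β J L τ F) ∂π := by
    conv_lhs => rw [← gibbs_fix hπ a b]
    exact GIBBSE.integral_KK β J (Finset.Icc a b) π _ (meas_gE β J L F hF) C
      (fun x => abs_gE_le β J L x F C hC)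
  rw [h1, h2]
  refine integral_congr_ae (ae_of_all _ fun ω => ?_)
  exact ((t_BASIC d β J (Finset.Icc a b) ω).2.2.2.2.2.1 L hsub F).symm

/-- decay of correlations from the loss of memory -/
theorem cov_le {β : ℝ} {J : Coupling d} {π : Measure (Site d → Bool)} (hπ : IsGibbs β J π)
    (A : Finset (Site d)) (r : ℕ) (f g : (Site d → Bool) → ℝ) (hf : Unit01 f)
    (hfl : LocalOn A f) (hg : Unit01 g) (hgm : Measurable g)
    (hgl : ∀ σ σ' : Site d → Bool, (∀ y, (∀ a ∈ A, r ≤ dist1 a y) → σ y = σ' y) → g σ = g σ')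
    (X : ℝ≥0∞)
    (hX : ∀ (Λ : Finset (Site d)), (∀ a ∈ A, ∀ y, y ∉ Λ → r ≤ dist1 a y) →
      ∀ ω ω' : Site d → Bool, ENNReal.ofReal |gE β J Λ ω f - gE β J Λ ω' f| ≤ X) :
    ENNReal.ofReal |(∫ σ, f σ * g σ ∂π) - (∫ σ, f σ ∂π) * ∫ σ, g σ ∂π| ≤ X := by
  classical
  have := hπ.1
  by_cases hXt : X = ∞
  · rw [hXt]; exact le_top
  set L : Finset (Site d) :=
    (A.biUnion fun a => ball a r).filter (fun y => ∃ a ∈ A, dist1 a y < r) with hL
  have hout : ∀ a ∈ A, ∀ y, y ∉ L → r ≤ dist1 a y := by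
    intro a ha y hy
    by_contra hcon
    apply hy
    rw [hL, Finset.mem_filter, Finset.mem_biUnion]
    exact ⟨⟨a, ha, (mem_ball_iff a y _).2 (by omega)⟩, a, ha, by omega⟩
  have hin : ∀ y, (∀ a ∈ A, r ≤ dist1 a y) → y ∉ L := by
    intro y hy hyL
    rw [hL, Finset.mem_filter] at hyL
    obtain ⟨a, ha, h⟩ := hyL.2
    have := hy a ha
    omega
  set G : (Site d → Bool) → ℝ := fun τ => gE β J L τ f with hG
  have hfm := local_meas A f hfl
  have hGm : Measurable G := meas_gE β J L f hfm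
  have hGg : ∀ τ, gE β J L τ (fun σ => f σ * g σ) = g τ * G τ := by
    intro τ
    rw [hG]
    simp only [GIBBSE.gE_eq, Finset.mul_sum]
    refine Finset.sum_congr rfl fun η _ => ?_
    have : g (glue L η τ) = g τ := by
      refine hgl _ _ fun y hy => ?_
      have := hin y hy
      simp [glue, this]
    rw [this]; ring
  have hosc : ∀ τ τ', |G τ - G τ'| ≤ X.toReal := fun τ τ' =>
    (ENNReal.ofReal_le_iff_le_toReal hXt).1 (hX L hout τ τ')
  have hG01 : ∀ τ, |G τ| ≤ 1 := fun τ => abs_gE_le β J L τ f 1 fun x => by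
    rw [abs_of_nonneg (hf x).1]; exact (hf x).2
  have hg1 : ∀ τ, |g τ| ≤ 1 := fun τ => by rw [abs_of_nonneg (hg τ).1]; exact (hg τ).2
  have hGi : Integrable G π :=
    Integrable.of_bound hGm.aestronglyMeasurable 1 (ae_of_all _ fun x => hG01 x)
  have hgi : Integrable g π :=
    Integrable.of_bound hgm.aestronglyMeasurable 1 (ae_of_all _ fun x => hg1 x)
  have hgGi : Integrable (fun τ => g τ * G τ) π :=
    Integrable.of_bound (hgm.mul hGm).aestronglyMeasurable 1 (ae_of_all _ fun x => by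
      rw [Real.norm_eq_abs, abs_mul]
      calc |g x| * |G x| ≤ 1 * 1 := mul_le_mul (hg1 x) (hG01 x) (abs_nonneg _) zero_le_one
        _ = 1 := one_mul 1)
  set m : ℝ := ∫ σ, f σ ∂π with hm
  have e1 : ∫ τ, G τ ∂π = m := gibbs_int hπ L f hfm 1 fun x => by
    rw [abs_of_nonneg (hf x).1]; exact (hf x).2
  have e2 : ∫ σ, f σ * g σ ∂π = ∫ τ, g τ * G τ ∂π := by
    rw [← gibbs_int hπ L (fun σ => f σ * g σ) (hfm.mul hgm) 1 (fun x => by
      rw [abs_mul, abs_of_nonneg (hf x).1]
      calc f x * |g x| ≤ 1 * 1 := mul_le_mul (hf x).2 (hg1 x) (abs_nonneg _) zero_le_one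
        _ = 1 := one_mul 1)]
    exact integral_congr_ae (ae_of_all _ fun τ => hGg τ)
  have hdev : ∀ τ, |G τ - m| ≤ X.toReal := by
    intro τ
    have h1 : G τ - m = ∫ τ', (G τ - G τ') ∂π := by
      rw [integral_sub (integrable_const _) hGi, e1]; simp
    rw [h1]
    have := norm_integral_le_of_norm_le_const (μ := π) (f := fun τ' => G τ - G τ')
      (C := X.toReal) (ae_of_all _ fun τ' => by rw [Real.norm_eq_abs]; exact hosc τ τ')
    simpa using this
  have e3 : (∫ σ, f σ * g σ ∂π) - m * ∫ σ, g σ ∂π = ∫ τ, g τ * (G τ - m) ∂π := by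
    rw [e2, ← integral_const_mul, ← integral_sub hgGi (hgi.const_mul m)]
    exact integral_congr_ae (ae_of_all _ fun τ => by ring)
  rw [e3, ENNReal.ofReal_le_iff_le_toReal hXt]
  have := norm_integral_le_of_norm_le_const (μ := π) (f := fun τ => g τ * (G τ - m))
    (C := X.toReal) (ae_of_all _ fun τ => by
      rw [Real.norm_eq_abs, abs_mul]
      calc |g τ| * |G τ - m| ≤ 1 * X.toReal :=
            mul_le_mul (hg1 τ) (hdev τ) (abs_nonneg _) zero_le_one
        _ = X.toReal := one_mul _)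
  simpa using this

end Pool.Agent.U475.EA
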