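import Pool.Agent.U475.EA.Cov

/-!
# Edwards–Anderson model: spin flip symmetry and the two-point function
-/

set_option autoImplicit false

open MeasureTheory Filter
open scoped ENNReal Topology

namespace Pool.Agent.U475.EA

open Pool.H47EA

variable {d : ℕ}

/-- the global spin flip -/
def fl (σ : Site d → Bool) : Site d → Bool := fun x => !(σ x)

theorem sg_not (b : Bool) : sg (!b) = -sg b := by cases b <;> simp [sg]

theorem fl_meas : Measurable (fl (d := d)) := by
  rw [measurable_pi_iff]
  intro x
  exact (measurable_of_countable (fun b : Bool => !b)).comp (measurable_pi_apply x)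

theorem bond_fl (J : Coupling d) (σ : Site d → Bool) (e : Sym2 (Site d)) :
    bond J (fl σ) e = bond J σ e := by
  induction e using Sym2.ind with
  | _ x y =>
    show Jc J x y * sg (fl σ x) * sg (fl σ y) = Jc J x y * sg (σ x) * sg (σ y)
    simp only [fl, sg_not]; ring

theorem ham_fl (J : Coupling d) (Λ : Finset (Site d)) (σ : Site d → Bool) :
    ham J Λ (fl σ) = ham J Λ σ := by
  unfold ham
  exact Finset.sum_congr rfl fun e _ => bond_fl J σ e

/-- the flip in a finite set -/
def flE (Λ : Finset (Site d)) : (Λ → Bool) ≃ (Λ → Bool) where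
  toFun η := fun x => !(η x)
  invFun η := fun x => !(η x)
  left_inv η := by funext x; simp
  right_inv η := by funext x; simp

theorem glue_fl (Λ : Finset (Site d)) (η : Λ → Bool) (ω : Site d → Bool) :
    glue Λ (flE Λ η) (fl ω) = fl (glue Λ η ω) := by
  funext x
  by_cases h : x ∈ Λ <;> simp [glue, fl, flE, h]

theorem gE_fl (β : ℝ) (J : Coupling d) (Λ : Finset (Site d)) (ω : Site d → Bool)
    (f : (Site d → Bool) → ℝ) :
    gE β J Λ (fl ω) f = gE β J Λ ω (fun σ => f (fl σ)) := by
  unfold gE Zp
  rw [← Equiv.sum_comp (flE Λ) (fun η => Real.exp (β * ham J Λ (glue Λ η (fl ω))) *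
      f (glue Λ η (fl ω))),
    ← Equiv.sum_comp (flE Λ) (fun η => Real.exp (β * ham J Λ (glue Λ η (fl ω))))]
  simp only [glue_fl, ham_fl]

theorem gibbs_fl {β : ℝ} {J : Coupling d} {π : Measure (Site d → Bool)} (hπ : IsGibbs β J π) :
    IsGibbs β J (π.map fl) := by
  have := hπ.1
  refine ⟨Measure.isProbabilityMeasure_map fl_meas.aemeasurable, fun a b A hA => ?_⟩
  rw [Measure.map_apply fl_meas hA, hπ.2 a b _ (fl_meas hA)]
  have hind : Measurable (A.indicator fun _ => (1 : ℝ)) := measurable_const.indicator hA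
  rw [integral_map fl_meas.aemeasurable
    (meas_gE β J (Finset.Icc a b) _ hind).aestronglyMeasurable]
  refine integral_congr_ae (ae_of_all _ fun ω => ?_)
  show _ = gE β J (Finset.Icc a b) (fl ω) _
  rw [gE_fl]
  rfl

theorem mean_zero {β : ℝ} {J : Coupling d} {π : Measure (Site d → Bool)} (hπ : IsGibbs β J π)
    (hu : ∀ π', IsGibbs β J π' → π' = π) (x : Site d) : ∫ σ, sg (σ x) ∂π = 0 := by
  have h1 : π.map fl = π := hu _ (gibbs_fl hπ)
  have hm : Measurable fun σ : Site d → Bool => sg (σ x) :=
    (measurable_of_countable sg).comp (measurable_pi_apply x)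
  have h2 : ∫ σ, sg (σ x) ∂π = ∫ σ, sg (fl σ x) ∂π := by
    conv_lhs => rw [← h1]
    exact integral_map fl_meas.aemeasurable hm.aestronglyMeasurable
  have h3 : ∫ σ, sg (fl σ x) ∂π = -∫ σ, sg (σ x) ∂π := by
    rw [← integral_neg]
    refine integral_congr_ae (ae_of_all _ fun σ => ?_)
    exact sg_not _
  linarith

theorem ind_eq (x : Site d) (σ : Site d → Bool) : ind x σ = (1 + sg (σ x)) / 2 := by
  unfold ind sg; cases σ x <;> norm_num

theorem sg_int {π : Measure (Site d → Bool)} [IsProbabilityMeasure π] (x : Site d) :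
    Integrable (fun σ : Site d → Bool => sg (σ x)) π := by
  have hm : Measurable fun σ : Site d → Bool => sg (σ x) :=
    (measurable_of_countable sg).comp (measurable_pi_apply x)
  exact Integrable.of_bound hm.aestronglyMeasurable 1 (ae_of_all _ fun σ => by
    rw [Real.norm_eq_abs, InfAux.abs_sg])

theorem two_point {β : ℝ} {J : Coupling d} {π : Measure (Site d → Bool)} (hπ : IsGibbs β J π)
    (hu : ∀ π', IsGibbs β J π' → π' = π) (x y : Site d) :
    ∫ σ, sg (σ x) * sg (σ y) ∂π =
      4 * ((∫ σ, ind x σ * ind y σ ∂π) - (∫ σ, ind x σ ∂π) * ∫ σ, ind y σ ∂π) := by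
  have := hπ.1
  have hx := mean_zero hπ hu x
  have hy := mean_zero hπ hu y
  have hmx : Measurable fun σ : Site d → Bool => sg (σ x) :=
    (measurable_of_countable sg).comp (measurable_pi_apply x)
  have hmy : Measurable fun σ : Site d → Bool => sg (σ y) :=
    (measurable_of_countable sg).comp (measurable_pi_apply y)
  have hxy : Integrable (fun σ : Site d → Bool => sg (σ x) * sg (σ y)) π :=
    Integrable.of_bound (hmx.mul hmy).aestronglyMeasurable 1 (ae_of_all _ fun σ => by
      rw [Real.norm_eq_abs, abs_mul, InfAux.abs_sg, InfAux.abs_sg, one_mul])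
  have ex : ∫ σ, ind x σ ∂π = 1 / 2 := by
    have : (fun σ : Site d → Bool => ind x σ) = fun σ => 1 / 2 + 1 / 2 * sg (σ x) := by
      funext σ; rw [ind_eq]; ring
    rw [this, integral_add (integrable_const _) ((sg_int x).const_mul _), integral_const_mul, hx]
    simp
  have ey : ∫ σ, ind y σ ∂π = 1 / 2 := by
    have : (fun σ : Site d → Bool => ind y σ) = fun σ => 1 / 2 + 1 / 2 * sg (σ y) := by
      funext σ; rw [ind_eq]; ring
    rw [this, integral_add (integrable_const _) ((sg_int y).const_mul _), integral_const_mul, hy]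
    simp
  have exy : ∫ σ, ind x σ * ind y σ ∂π = 1 / 4 + 1 / 4 * ∫ σ, sg (σ x) * sg (σ y) ∂π := by
    have : (fun σ : Site d → Bool => ind x σ * ind y σ) = fun σ =>
        (1 / 4 + 1 / 4 * sg (σ x)) + (1 / 4 * sg (σ y) + 1 / 4 * (sg (σ x) * sg (σ y))) := by
      funext σ; rw [ind_eq, ind_eq]; ring
    have i1 : Integrable (fun σ : Site d → Bool => (1 / 4 : ℝ) + 1 / 4 * sg (σ x)) π :=
      (integrable_const _).add ((sg_int x).const_mul _)
    have i2 : Integrable (fun σ : Site d → Bool =>
        (1 / 4 : ℝ) * sg (σ y) + 1 / 4 * (sg (σ x) * sg (σ y))) π :=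
      ((sg_int y).const_mul _).add (hxy.const_mul _)
    rw [this, integral_add i1 i2,
      integral_add (integrable_const _) ((sg_int x).const_mul _),
      integral_add ((sg_int y).const_mul _) (hxy.const_mul _), integral_const_mul,
      integral_const_mul, integral_const_mul, hx, hy]
    simp
  rw [ex, ey, exy]
  ring

end Pool.Agent.U475.EA
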